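import Mathlib
import Pool.Agent.N684.BK.Stm

/-!
Project BK (helper684), part ROWS: matrices whose rows span an isotropic subspace together with
the all-ones vector.
-/

set_option autoImplicit false

open Finset Module

namespace Pool.Agent.N392.BK.ROWS

section

variable {F : Type} [Field F] {j : ℕ}

/-- the span of the rows and of the all-ones vector -/
def RR {N : ℕ} (A : Fin N → Fin j → F) : Submodule F (Fin j → F) :=
  Submodule.span F (insert 1 (Set.range A))

/-- isotropic subspaces -/
def Iso (c : Fin j → F) (R : Submodule F (Fin j → F)) : Prop :=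
  ∀ u ∈ R, ∀ v ∈ R, ∑ i, c i * u i * v i = 0

/-- the bilinear form -/
def Bf (c : Fin j → F) : LinearMap.BilinForm F (Fin j → F) :=
  LinearMap.mk₂ F (fun u v => ∑ i, c i * u i * v i)
    (fun u u' v => by
      rw [← Finset.sum_add_distrib]; exact Finset.sum_congr rfl fun i _ => by simp; ring)
    (fun a u v => by
      rw [smul_eq_mul, Finset.mul_sum]; exact Finset.sum_congr rfl fun i _ => by simp; ring)
    (fun u v v' => by
      rw [← Finset.sum_add_distrib]; exact Finset.sum_congr rfl fun i _ => by simp; ring)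
    (fun a u v => by
      rw [smul_eq_mul, Finset.mul_sum]; exact Finset.sum_congr rfl fun i _ => by simp; ring)

theorem Bf_apply (c u v : Fin j → F) : Bf c u v = ∑ i, c i * u i * v i := rfl

theorem Bf_refl (c : Fin j → F) : (Bf c).IsRefl := by
  intro u v h
  rw [Bf_apply] at h ⊢
  rw [← h]
  exact Finset.sum_congr rfl fun i _ => by ring

theorem Bf_single (c : Fin j → F) (i : Fin j) (v : Fin j → F) :
    Bf c (Pi.single i 1) v = c i * v i := by
  rw [Bf_apply, Finset.sum_eq_single i]
  · simp
  · intro l _ hl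
    simp [Pi.single_eq_of_ne hl]
  · simp

theorem Bf_nondeg {c : Fin j → F} (hc : ∀ i, c i ≠ 0) : (Bf c).Nondegenerate := by
  have h1 : ∀ v, (∀ u, Bf c u v = 0) → v = 0 := by
    intro v hv
    funext i
    have := hv (Pi.single i 1)
    rw [Bf_single] at this
    simpa [hc i] using this
  refine ⟨fun v hv => h1 v fun u => Bf_refl c v u (hv u), fun v hv => h1 v hv⟩

theorem RR_cons {N : ℕ} (A : Fin (N + 1) → Fin j → F) :
    RR A = Submodule.span F {A 0} ⊔ RR (Fin.tail A) := by
  unfold RR
  rw [← Submodule.span_union]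
  congr 1
  ext v
  simp only [Set.mem_insert_iff, Set.mem_range, Set.singleton_union]
  constructor
  · rintro (h | ⟨i, hi⟩)
    · exact Or.inr (Or.inl h)
    · refine Fin.cases ?_ (fun i hi => ?_) i hi
      · intro h; exact Or.inl h.symm
      · exact Or.inr (Or.inr ⟨i, hi⟩)
  · rintro (h | h | ⟨i, hi⟩)
    · exact Or.inr ⟨0, h.symm⟩
    · exact Or.inl h
    · exact Or.inr ⟨i.succ, hi⟩

theorem finrank_RR_le {N : ℕ} (A : Fin N → Fin j → F) : finrank F (RR A) ≤ N + 1 := by
  classical
  have h : (insert (1 : Fin j → F) (Set.range A)) =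
      ((insert 1 (univ.image A) : Finset (Fin j → F)) : Set (Fin j → F)) := by
    simp
  unfold RR
  rw [h]
  refine (finrank_span_finset_le_card _).trans ?_
  refine (Finset.card_insert_le _ _).trans ?_
  have := Finset.card_image_le (s := (univ : Finset (Fin N))) (f := A)
  simp at this
  omega

end

variable {F : Type} [Field F] [Fintype F] {j : ℕ}

theorem card_sub (R : Submodule F (Fin j → F)) :
    Nat.card R = Fintype.card F ^ finrank F R := by
  rw [← Nat.card_eq_fintype_card]
  exact Module.natCard_eq_pow_finrank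

open Classical in
/-- the good matrices -/
noncomputable def S (c : Fin j → F) (N r : ℕ) : Finset (Fin N → Fin j → F) :=
  univ.filter fun A => Iso c (RR A) ∧ finrank F (RR A) = r

open Classical in
theorem card_mem (R : Submodule F (Fin j → F)) :
    (univ.filter fun v => v ∈ R).card = Fintype.card F ^ finrank F R := by
  rw [← card_sub, Nat.card_eq_fintype_card, Fintype.card_subtype]

open Classical in
theorem step {c : Fin j → F} (hc : ∀ i, c i ≠ 0) (N r : ℕ) :
    (S c (N + 1) (r + 1)).card ≤ (S c N (r + 1)).card * Fintype.card F ^ (r + 1) +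
      (S c N r).card * Fintype.card F ^ (j - r) := by
  set T1 : Finset (Σ _ : Fin N → Fin j → F, Fin j → F) :=
    (S c N (r + 1)).sigma fun A => univ.filter fun v => v ∈ RR A with hT1
  set T2 : Finset (Σ _ : Fin N → Fin j → F, Fin j → F) :=
    (S c N r).sigma fun A => univ.filter fun v => v ∈ (Bf c).orthogonal (RR A) with hT2
  have h1 : T1.card = (S c N (r + 1)).card * Fintype.card F ^ (r + 1) := by
    rw [hT1, Finset.card_sigma, Finset.sum_const_nat]
    intro A hA
    rw [card_mem]
    rw [S, mem_filter] at hA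
    rw [hA.2.2]
  have h2 : T2.card = (S c N r).card * Fintype.card F ^ (j - r) := by
    rw [hT2, Finset.card_sigma, Finset.sum_const_nat]
    intro A hA
    rw [card_mem]
    rw [S, mem_filter] at hA
    rw [LinearMap.BilinForm.finrank_orthogonal (Bf_nondeg hc), hA.2.2]
    simp
  rw [← h1, ← h2]
  refine le_trans ?_ (Finset.card_union_le T1 T2)
  refine Finset.card_le_card_of_injOn (fun A => ⟨Fin.tail A, A 0⟩) ?_ ?_
  · intro A hA
    rw [mem_coe, S, mem_filter] at hA
    obtain ⟨-, hiso, hfr⟩ := hA
    have hle : RR (Fin.tail A) ≤ RR A := by rw [RR_cons]; exact le_sup_right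
    have hA0 : A 0 ∈ RR A := by
      rw [RR_cons]
      exact Submodule.mem_sup_left (Submodule.mem_span_singleton_self _)
    have hiso' : Iso c (RR (Fin.tail A)) := fun u hu v hv => hiso u (hle hu) v (hle hv)
    rw [mem_coe, mem_union]
    by_cases hv : A 0 ∈ RR (Fin.tail A)
    · left
      rw [hT1, mem_sigma, mem_filter, S, mem_filter]
      refine ⟨⟨mem_univ _, hiso', ?_⟩, mem_univ _, hv⟩
      have h4 : RR A = RR (Fin.tail A) := by
        rw [RR_cons]
        exact sup_eq_right.2 ((Submodule.span_singleton_le_iff_mem _ _).2 hv)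
      show finrank F (RR (Fin.tail A)) = r + 1
      rw [← h4]; exact hfr
    · right
      rw [hT2, mem_sigma, mem_filter, S, mem_filter]
      refine ⟨⟨mem_univ _, hiso', ?_⟩, mem_univ _, ?_⟩
      · have h3 : finrank F (RR A) = finrank F (RR (Fin.tail A)) + 1 := by
          rw [RR_cons, sup_comm]
          exact Submodule.finrank_sup_span_singleton hv
        show finrank F (RR (Fin.tail A)) = r
        omega
      · rw [LinearMap.BilinForm.mem_orthogonal_iff]
        intro u hu
        exact hiso u (hle hu) _ hA0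
  · intro A _ B _ h
    simp only [Sigma.mk.injEq, heq_eq_eq] at h
    rw [← Fin.cons_self_tail A, ← Fin.cons_self_tail B, h.1, h.2]

theorem S_zero_rank (c : Fin j → F) (N : ℕ) (h : 0 < j) : S c N 0 = ∅ := by
  classical
  rw [S, Finset.filter_eq_empty_iff]
  rintro A - ⟨-, h0⟩
  have h1 : RR A = ⊥ := Submodule.finrank_eq_zero.1 h0
  have h2 : (1 : Fin j → F) ∈ RR A := Submodule.subset_span (Set.mem_insert _ _)
  rw [h1, Submodule.mem_bot] at h2
  exact one_ne_zero (congrFun h2 ⟨0, h⟩)

theorem S_big (c : Fin j → F) (N r : ℕ) (h : j < r ∨ N + 1 < r) : S c N r = ∅ := by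
  classical
  rw [S, Finset.filter_eq_empty_iff]
  rintro A - ⟨-, h0⟩
  have h1 := finrank_RR_le A
  have h2 : finrank F (RR A) ≤ finrank F (Fin j → F) := Submodule.finrank_le _
  rw [finrank_fin_fun] at h2
  omega

theorem main {c : Fin j → F} (hc : ∀ i, c i ≠ 0) (N : ℕ) : ∀ r : ℕ,
    (S c N (r + 1)).card * Fintype.card F ^ (r * (r + 1) / 2 + r * (r + 1)) ≤
      2 ^ N * Fintype.card F ^ (r * j + (r + 1) * N) := by
  classical
  have hq : 1 ≤ Fintype.card F := Fintype.card_pos
  induction N with
  | zero =>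
    intro r
    rcases Nat.eq_zero_or_pos r with rfl | hr
    · simp only [zero_add, zero_mul, Nat.zero_div, pow_zero, mul_one, mul_zero]
      refine (Finset.card_le_univ _).trans ?_
      simp
    · rw [S_big c 0 (r + 1) (Or.inr (by omega))]
      simp
  | succ N ih =>
    intro r
    have hs := step hc N r
    rcases Nat.eq_zero_or_pos j with hj | hj
    · rw [S_big c (N + 1) (r + 1) (Or.inl (by omega))]
      simp
    rcases Nat.eq_zero_or_pos r with rfl | hr
    · rw [S_zero_rank c N hj] at hs
      have h0 := ih 0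
      simp only [zero_add, zero_mul, Nat.zero_div, pow_zero, mul_one, one_mul, pow_one,
        Finset.card_empty] at hs h0 ⊢
      calc (S c (N + 1) 1).card ≤ (S c N 1).card * Fintype.card F + 0 := by simpa using hs
        _ ≤ 2 ^ N * Fintype.card F ^ N * Fintype.card F := by
          rw [add_zero]; exact Nat.mul_le_mul_right _ h0
        _ = 2 ^ N * Fintype.card F ^ (N + 1) := by ring
        _ ≤ 2 ^ (N + 1) * Fintype.card F ^ (N + 1) :=
          Nat.mul_le_mul_right _ (Nat.pow_le_pow_right (by norm_num) (Nat.le_succ N))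
    obtain ⟨t, rfl⟩ : ∃ t, r = t + 1 := ⟨r - 1, by omega⟩
    have h1 := ih (t + 1)
    have h2 := ih t
    set q := Fintype.card F with hqd
    have hexp : (t + 1) * (t + 1 + 1) / 2 + (t + 1) * (t + 1 + 1) =
        t * (t + 1) / 2 + t * (t + 1) + 3 * (t + 1) := by
      have : (t + 1) * (t + 1 + 1) = t * (t + 1) + (t + 1) * 2 := by ring
      rw [this, Nat.add_mul_div_right _ _ (by norm_num : 0 < 2)]
      ring
    have e1 : (S c N (t + 1 + 1)).card * q ^ (t + 1 + 1) *
        q ^ ((t + 1) * (t + 1 + 1) / 2 + (t + 1) * (t + 1 + 1)) ≤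
        2 ^ N * q ^ ((t + 1) * j + (t + 1 + 1) * (N + 1)) := by
      calc (S c N (t + 1 + 1)).card * q ^ (t + 1 + 1) *
            q ^ ((t + 1) * (t + 1 + 1) / 2 + (t + 1) * (t + 1 + 1)) =
            (S c N (t + 1 + 1)).card *
            q ^ ((t + 1) * (t + 1 + 1) / 2 + (t + 1) * (t + 1 + 1)) * q ^ (t + 1 + 1) := by ring
        _ ≤ 2 ^ N * q ^ ((t + 1) * j + (t + 1 + 1) * N) * q ^ (t + 1 + 1) :=
          Nat.mul_le_mul_right _ h1
        _ = 2 ^ N * q ^ ((t + 1) * j + (t + 1 + 1) * (N + 1)) := by
          rw [mul_assoc, ← pow_add]; congr 2; ring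
    have e2 : (S c N (t + 1)).card * q ^ (j - (t + 1)) *
        q ^ ((t + 1) * (t + 1 + 1) / 2 + (t + 1) * (t + 1 + 1)) ≤
        2 ^ N * q ^ ((t + 1) * j + (t + 1 + 1) * (N + 1)) := by
      by_cases hb : j < t + 1 ∨ N + 1 < t + 1
      · rw [S_big c N (t + 1) hb]; simp
      push Not at hb
      rw [hexp]
      calc (S c N (t + 1)).card * q ^ (j - (t + 1)) *
            q ^ (t * (t + 1) / 2 + t * (t + 1) + 3 * (t + 1)) =
            (S c N (t + 1)).card * q ^ (t * (t + 1) / 2 + t * (t + 1)) *
              q ^ (j - (t + 1) + 3 * (t + 1)) := by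
              rw [pow_add q (t * (t + 1) / 2 + t * (t + 1)), pow_add q (j - (t + 1))]; ring
        _ ≤ 2 ^ N * q ^ (t * j + (t + 1) * N) * q ^ (j - (t + 1) + 3 * (t + 1)) :=
          Nat.mul_le_mul_right _ h2
        _ = 2 ^ N * q ^ (t * j + (t + 1) * N + (j - (t + 1) + 3 * (t + 1))) := by
          rw [mul_assoc, ← pow_add]
        _ ≤ 2 ^ N * q ^ ((t + 1) * j + (t + 1 + 1) * (N + 1)) := by
          refine Nat.mul_le_mul_left _ (Nat.pow_le_pow_right hq ?_)
          obtain ⟨d, hd⟩ := Nat.exists_eq_add_of_le hb.1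
          have : j - (t + 1) = d := by omega
          rw [this, hd]
          nlinarith [hb.2]
    calc (S c (N + 1) (t + 1 + 1)).card *
          q ^ ((t + 1) * (t + 1 + 1) / 2 + (t + 1) * (t + 1 + 1)) ≤
          ((S c N (t + 1 + 1)).card * q ^ (t + 1 + 1) +
            (S c N (t + 1)).card * q ^ (j - (t + 1))) *
          q ^ ((t + 1) * (t + 1 + 1) / 2 + (t + 1) * (t + 1 + 1)) := Nat.mul_le_mul_right _ hs
      _ ≤ 2 ^ N * q ^ ((t + 1) * j + (t + 1 + 1) * (N + 1)) +
          2 ^ N * q ^ ((t + 1) * j + (t + 1 + 1) * (N + 1)) := by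
          rw [add_mul]; exact Nat.add_le_add e1 e2
      _ = 2 ^ (N + 1) * q ^ ((t + 1) * j + (t + 1 + 1) * (N + 1)) := by ring

/-- **Part ROWS.** -/
theorem ROWS : Pool.Agent.N684.BK.S_ROWS := by
  intro F _ _ N j r c hc
  classical
  have h := main hc N r
  have e : Nat.card {A : Fin N → Fin j → F //
    (∀ u ∈ Submodule.span F (insert 1 (Set.range A)),
      ∀ v ∈ Submodule.span F (insert 1 (Set.range A)), ∑ i, c i * u i * v i = 0) ∧
    Module.finrank F (Submodule.span F (insert 1 (Set.range A))) = r + 1} =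
      (S c N (r + 1)).card := by
    rw [Nat.card_eq_fintype_card, Fintype.card_subtype, S]
    congr 1
    ext A
    rw [mem_filter, mem_filter]
    rfl
  rw [e]
  exact h

end Pool.Agent.N392.BK.ROWS
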